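import Mathlib

namespace Pool.Agent.Results.MP_f3efb8_co.ForcedTriangle

open Finset

/-- `G` is `κ`-connected: it has more than `κ` vertices, and deleting any set of fewer than `κ`
vertices leaves a connected graph. -/
def KConnected {V : Type} [Fintype V] (κ : ℕ) (G : SimpleGraph V) : Prop :=
  κ < Fintype.card V ∧ ∀ X : Finset V, X.card < κ → (G.induce {v | v ∉ X}).Connected

/-- `G` is `r`-regular: every vertex has exactly `r` neighbours. -/
def IsRegular {V : Type} (r : ℕ) (G : SimpleGraph V) : Prop :=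
  ∀ v, (G.neighborSet v).ncard = r

/-- `F` is a `t`-factor of `G`: a spanning subgraph in which every vertex has exactly `t`
neighbours. -/
def IsFactor {V : Type} (t : ℕ) (G F : SimpleGraph V) : Prop :=
  F ≤ G ∧ ∀ v, (F.neighborSet v).ncard = t

/-- `C` is a cycle of `G`: a connected `2`-regular subgraph. -/
def IsCycle {V : Type} {G : SimpleGraph V} (C : G.Subgraph) : Prop :=
  C.Connected ∧ ∀ v ∈ C.verts, (C.neighborSet v).ncard = 2

open Classical in
/-- adjacency indicator -/
noncomputable def f {V : Type} (F : SimpleGraph V) (v w : V) : ℕ := if F.Adj v w then 1 else 0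

lemma f_le_one {V : Type} (F : SimpleGraph V) (v w : V) : f F v w ≤ 1 := by
  unfold f; split_ifs <;> simp

lemma ncard_eq_sum {V : Type} [Fintype V] (F : SimpleGraph V) (v : V) :
    (F.neighborSet v).ncard = ∑ w, f F v w := by
  classical
  unfold f
  rw [Finset.sum_boole, Set.ncard_eq_toFinset_card']
  simp only [Nat.cast_id]
  congr 1
  ext w
  simp

lemma f_symm {V : Type} (F : SimpleGraph V) (v w : V) : f F v w = f F w v := by
  classical
  unfold f; exact if_congr (F.adj_comm v w) rfl rfl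

lemma even_sum {V : Type} [Fintype V] (F : SimpleGraph V) : Even (∑ v, ∑ w, f F v w) := by
  classical
  have h := F.sum_degrees_eq_twice_card_edges
  have h2 : ∑ v, ∑ w, f F v w = ∑ v, F.degree v := by
    refine Finset.sum_congr rfl fun v _ => ?_
    rw [← ncard_eq_sum, Set.ncard_eq_toFinset_card']
    simp [SimpleGraph.degree, SimpleGraph.neighborFinset]
  rw [h2, h]
  exact even_two_mul _

variable {κ : ℕ} {S Q K : Type}

/-- adjacency of the construction: a triangle, an independent set `S`, and for each `q` a graph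
`H q` on a copy of `K` -/
def adj (A : Fin 3 → S → Prop) (B : Q → K → S → Prop) (H : Q → SimpleGraph K) :
    (Fin 3 ⊕ S ⊕ (Q × K)) → (Fin 3 ⊕ S ⊕ (Q × K)) → Prop
  | .inl a, .inl b => a ≠ b
  | .inl a, .inr (.inl u) => A a u
  | .inr (.inl u), .inl a => A a u
  | .inr (.inl u), .inr (.inr (q, k)) => B q k u
  | .inr (.inr (q, k)), .inr (.inl u) => B q k u
  | .inr (.inr (q, k)), .inr (.inr (q', k')) => q = q' ∧ (H q).Adj k k'
  | .inl _, .inr (.inr _) => False
  | .inr (.inr _), .inl _ => False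
  | .inr (.inl _), .inr (.inl _) => False

/-- the construction -/
def G (A : Fin 3 → S → Prop) (B : Q → K → S → Prop) (H : Q → SimpleGraph K) :
    SimpleGraph (Fin 3 ⊕ S ⊕ (Q × K)) where
  Adj := adj A B H
  symm := ⟨by
    rintro (a | u | ⟨q, k⟩) (b | u' | ⟨q', k'⟩) <;> simp only [adj, imp_self]
    · exact fun h => h.symm
    · rintro ⟨rfl, h⟩; exact ⟨rfl, h.symm⟩⟩
  loopless := ⟨by
    rintro (a | u | ⟨q, k⟩) <;> simp [adj]⟩

lemma G_mono {A A' : Fin 3 → S → Prop} {B B' : Q → K → S → Prop} {H H' : Q → SimpleGraph K}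
    (hA : ∀ a u, A a u → A' a u) (hB : ∀ q k u, B q k u → B' q k u)
    (hH : ∀ q k k', (H q).Adj k k' → (H' q).Adj k k') : G A B H ≤ G A' B' H' := by
  rintro (a | u | ⟨q, k⟩) (b | u' | ⟨q', k'⟩) <;> simp only [G, adj, imp_self]
  · exact hA _ _
  · exact hA _ _
  · exact hB _ _ _
  · exact hB _ _ _
  · rintro ⟨rfl, h⟩; exact ⟨rfl, hH _ _ _ h⟩

lemma f_eq {V : Type} (F : SimpleGraph V) (v w : V) (P : Prop) [Decidable P]
    (h : F.Adj v w ↔ P) : f F v w = if P then 1 else 0 := by
  classical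
  unfold f; exact if_congr h rfl rfl

/-- degrees in the construction -/
lemma G_deg [Fintype S] [Fintype Q] [Fintype K] {A : Fin 3 → S → Prop} {B : Q → K → S → Prop}
    {H : Q → SimpleGraph K} [∀ a, DecidablePred (A a)] [∀ q k, DecidablePred (B q k)]
    [∀ q, DecidableRel (H q).Adj] {r : ℕ}
    (h1 : ∀ a, (univ.filter (A a)).card + 2 = r)
    (h2 : ∀ u, (univ.filter (fun a => A a u)).card +
      ∑ q : Q, (univ.filter (fun k => B q k u)).card = r)
    (h3 : ∀ q k, (univ.filter (B q k)).card + (univ.filter ((H q).Adj k)).card = r) :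
    IsRegular r (G A B H) := by
  classical
  intro v
  rw [ncard_eq_sum]
  rw [Fintype.sum_sum_type, Fintype.sum_sum_type, Fintype.sum_prod_type]
  rcases v with a | u | ⟨q, k⟩
  · have e1 : ∑ b : Fin 3, f (G A B H) (.inl a) (.inl b) = 2 := by
      have : ∀ b : Fin 3, f (G A B H) (.inl a) (.inl b) = if a ≠ b then 1 else 0 :=
        fun b => f_eq _ _ _ _ Iff.rfl
      simp only [this]
      fin_cases a <;> rfl
    have e2 : ∑ u : S, f (G A B H) (.inl a) (.inr (.inl u)) = (univ.filter (A a)).card := by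
      have : ∀ u : S, f (G A B H) (.inl a) (.inr (.inl u)) = if A a u then 1 else 0 :=
        fun b => f_eq _ _ _ _ Iff.rfl
      simp only [this, Finset.sum_boole, Nat.cast_id]
    have e3 : ∑ q : Q, ∑ k : K, f (G A B H) (.inl a) (.inr (.inr (q, k))) = 0 := by
      have : ∀ q k, f (G A B H) (.inl a) (.inr (.inr (q, k))) = if False then 1 else 0 :=
        fun q k => f_eq _ _ _ _ Iff.rfl
      simp [this]
    rw [e1, e2, e3]
    have := h1 a
    omega
  · have e1 : ∑ b : Fin 3, f (G A B H) (.inr (.inl u)) (.inl b)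
        = (univ.filter (fun a => A a u)).card := by
      have : ∀ b, f (G A B H) (.inr (.inl u)) (.inl b) = if A b u then 1 else 0 :=
        fun b => f_eq _ _ _ _ Iff.rfl
      simp only [this, Finset.sum_boole, Nat.cast_id]
    have e2 : ∑ u' : S, f (G A B H) (.inr (.inl u)) (.inr (.inl u')) = 0 := by
      have : ∀ u', f (G A B H) (.inr (.inl u)) (.inr (.inl u')) = if False then 1 else 0 :=
        fun q => f_eq _ _ _ _ Iff.rfl
      simp [this]
    have e3 : ∑ q : Q, ∑ k : K, f (G A B H) (.inr (.inl u)) (.inr (.inr (q, k)))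
        = ∑ q : Q, (univ.filter (fun k => B q k u)).card := by
      refine Finset.sum_congr rfl fun q _ => ?_
      have : ∀ k, f (G A B H) (.inr (.inl u)) (.inr (.inr (q, k))) = if B q k u then 1 else 0 :=
        fun b => f_eq _ _ _ _ Iff.rfl
      simp only [this, Finset.sum_boole, Nat.cast_id]
    rw [e1, e2, e3]
    have := h2 u
    omega
  · have e1 : ∑ b : Fin 3, f (G A B H) (.inr (.inr (q, k))) (.inl b) = 0 := by
      have : ∀ b, f (G A B H) (.inr (.inr (q, k))) (.inl b) = if False then 1 else 0 :=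
        fun q => f_eq _ _ _ _ Iff.rfl
      simp [this]
    have e2 : ∑ u' : S, f (G A B H) (.inr (.inr (q, k))) (.inr (.inl u'))
        = (univ.filter (B q k)).card := by
      have : ∀ u, f (G A B H) (.inr (.inr (q, k))) (.inr (.inl u)) = if B q k u then 1 else 0 :=
        fun b => f_eq _ _ _ _ Iff.rfl
      simp only [this, Finset.sum_boole, Nat.cast_id]
    have e3 : ∑ q' : Q, ∑ k' : K, f (G A B H) (.inr (.inr (q, k))) (.inr (.inr (q', k')))
        = (univ.filter ((H q).Adj k)).card := by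
      rw [Finset.sum_eq_single q]
      · have : ∀ k', f (G A B H) (.inr (.inr (q, k))) (.inr (.inr (q, k'))) =
            if (H q).Adj k k' then 1 else 0 :=
          fun k' => f_eq _ _ _ _ ⟨fun h => h.2, fun h => ⟨rfl, h⟩⟩
        simp only [this, Finset.sum_boole, Nat.cast_id]
      · intro q' _ hq'
        refine Finset.sum_eq_zero fun k' _ => ?_
        have : ¬ (G A B H).Adj (.inr (.inr (q, k))) (.inr (.inr (q', k'))) := by
          rintro ⟨h', _⟩
          exact hq' h'.symm
        simp [f, this]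
      · simp
    rw [e1, e2, e3]
    have := h3 q k
    omega

/-- In every subgraph with all degrees three the triangle is forced. -/
lemma forced [Fintype S] [Fintype Q] [Fintype K] (A : Fin 3 → S → Prop) (B : Q → K → S → Prop)
    (H : Q → SimpleGraph K) (hK : Odd (Fintype.card K))
    (hQ : Fintype.card Q + 3 = 3 * Fintype.card S)
    (F : SimpleGraph (Fin 3 ⊕ S ⊕ (Q × K))) (hF : F ≤ G A B H)
    (hd : ∀ v, (F.neighborSet v).ncard = 3) (a b : Fin 3) (hab : a ≠ b) :
    F.Adj (.inl a) (.inl b) := by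
  classical
  have hz : ∀ v w, ¬ (adj A B H v w) → f F v w = 0 := by
    intro v w hvw
    unfold f
    rw [if_neg]
    intro h'
    exact hvw (hF h')
  -- boundary of a component
  have hB : ∀ q : Q, 1 ≤ ∑ k : K, ∑ u : S, f F (.inr (.inr (q, k))) (.inr (.inl u)) := by
    intro q
    have e1 : ∑ k : K, ∑ w, f F (.inr (.inr (q, k))) w = ∑ k : K, 3 := by
      refine Finset.sum_congr rfl fun k _ => ?_
      rw [← ncard_eq_sum, hd]
    have e2 : ∀ k : K, ∑ w, f F (.inr (.inr (q, k))) w =
        ∑ u : S, f F (.inr (.inr (q, k))) (.inr (.inl u))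
        + ∑ k' : K, f F (.inr (.inr (q, k))) (.inr (.inr (q, k'))) := by
      intro k
      rw [Fintype.sum_sum_type, Fintype.sum_sum_type, Fintype.sum_prod_type]
      have z1 : ∑ a₁ : Fin 3, f F (.inr (.inr (q, k))) (.inl a₁) = 0 :=
        Finset.sum_eq_zero fun x _ => hz _ _ (by simp [adj])
      have z2 : ∑ x : Q, ∑ y : K, f F (.inr (.inr (q, k))) (.inr (.inr (x, y))) =
          ∑ k' : K, f F (.inr (.inr (q, k))) (.inr (.inr (q, k'))) := by
        rw [Finset.sum_eq_single q]
        · intro x _ hx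
          exact Finset.sum_eq_zero fun y _ => hz _ _ (by
            simp only [adj, not_and]; intro h'; exact absurd h'.symm hx)
        · simp
      rw [z1, z2]; simp
    have e3 : Even (∑ k : K, ∑ k' : K, f F (.inr (.inr (q, k))) (.inr (.inr (q, k')))) := by
      have := even_sum (F.comap (fun k : K => (.inr (.inr (q, k)) : Fin 3 ⊕ S ⊕ (Q × K))))
      simpa [f] using this
    simp only [e2, Finset.sum_add_distrib, Finset.sum_const, Finset.card_univ, smul_eq_mul] at e1
    rcases Nat.eq_zero_or_pos (∑ k : K, ∑ u : S, f F (.inr (.inr (q, k))) (.inr (.inl u))) with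
      h0 | h0
    · exfalso
      rw [h0, zero_add] at e1
      rw [e1] at e3
      have : Odd (Fintype.card K * 3) := hK.mul (by decide)
      exact (Nat.not_even_iff_odd.2 this) e3
    · exact h0
  -- count at S
  have hS : ∑ u : S, ∑ a : Fin 3, f F (.inr (.inl u)) (.inl a) + Fintype.card Q
      ≤ 3 * Fintype.card S := by
    have e1 : ∑ u : S, ∑ w, f F (.inr (.inl u)) w = ∑ u : S, 3 := by
      refine Finset.sum_congr rfl fun u _ => ?_
      rw [← ncard_eq_sum, hd]
    have e2 : ∀ u : S, ∑ a : Fin 3, f F (.inr (.inl u)) (.inl a)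
        + ∑ q : Q, ∑ k : K, f F (.inr (.inl u)) (.inr (.inr (q, k)))
        ≤ ∑ w, f F (.inr (.inl u)) w := by
      intro u
      rw [Fintype.sum_sum_type, Fintype.sum_sum_type, Fintype.sum_prod_type]
      omega
    have e3 : ∑ u : S, ∑ q : Q, ∑ k : K, f F (.inr (.inl u)) (.inr (.inr (q, k)))
        = ∑ q : Q, ∑ k : K, ∑ u : S, f F (.inr (.inr (q, k))) (.inr (.inl u)) := by
      rw [Finset.sum_comm]
      refine Finset.sum_congr rfl fun q _ => ?_
      rw [Finset.sum_comm]
      refine Finset.sum_congr rfl fun k _ => ?_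
      refine Finset.sum_congr rfl fun u _ => ?_
      exact f_symm _ _ _
    have e4 : Fintype.card Q ≤
        ∑ q : Q, ∑ k : K, ∑ u : S, f F (.inr (.inr (q, k))) (.inr (.inl u)) := by
      calc Fintype.card Q = ∑ q : Q, 1 := by simp
        _ ≤ _ := Finset.sum_le_sum fun q _ => hB q
    have e5 := Finset.sum_le_sum fun u (_ : u ∈ (Finset.univ : Finset S)) => e2 u
    rw [Finset.sum_add_distrib, e3, e1] at e5
    simp only [Finset.sum_const, Finset.card_univ, smul_eq_mul] at e5
    omega
  -- count at the triangle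
  have hT : ∑ a : Fin 3, ∑ b : Fin 3, f F (.inl a) (.inl b)
      + ∑ u : S, ∑ a : Fin 3, f F (.inr (.inl u)) (.inl a) = 9 := by
    have e1 : ∑ a : Fin 3, ∑ w, f F (.inl a) w = ∑ a : Fin 3, 3 := by
      refine Finset.sum_congr rfl fun u _ => ?_
      rw [← ncard_eq_sum, hd]
    have e2 : ∀ a : Fin 3, ∑ w, f F (.inl a) w =
        ∑ b : Fin 3, f F (.inl a) (.inl b) + ∑ u : S, f F (.inl a) (.inr (.inl u)) := by
      intro a
      rw [Fintype.sum_sum_type, Fintype.sum_sum_type]
      have : ∑ x : Q × K, f F (.inl a) (.inr (.inr x)) = 0 :=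
        Finset.sum_eq_zero fun x _ => hz _ _ (by simp [adj])
      omega
    have e3 : ∑ a : Fin 3, ∑ u : S, f F (.inl a) (.inr (.inl u)) =
        ∑ u : S, ∑ a : Fin 3, f F (.inr (.inl u)) (.inl a) := by
      rw [Finset.sum_comm]
      refine Finset.sum_congr rfl fun u _ => ?_
      refine Finset.sum_congr rfl fun a _ => ?_
      exact f_symm _ _ _
    simp only [e2, Finset.sum_add_distrib, e3] at e1
    rw [e1]; simp
  have hlow : 6 ≤ ∑ a : Fin 3, ∑ b : Fin 3, f F (.inl a) (.inl b) := by omega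
  have hdiag : ∀ a : Fin 3, f F (.inl a) (.inl a) = 0 := by
    intro a; simp [f]
  by_contra hcon
  have hcon0 : f F (.inl a) (.inl b) = 0 := by simp [f, hcon]
  have hcon1 : f F (.inl b) (.inl a) = 0 := by rw [f_symm]; exact hcon0
  have l01 := f_le_one F (.inl (0 : Fin 3)) (.inl (1 : Fin 3))
  have l02 := f_le_one F (.inl (0 : Fin 3)) (.inl (2 : Fin 3))
  have l12 := f_le_one F (.inl (1 : Fin 3)) (.inl (2 : Fin 3))
  have l10 := f_le_one F (.inl (1 : Fin 3)) (.inl (0 : Fin 3))
  have l20 := f_le_one F (.inl (2 : Fin 3)) (.inl (0 : Fin 3))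
  have l21 := f_le_one F (.inl (2 : Fin 3)) (.inl (1 : Fin 3))
  simp only [Fin.sum_univ_three, hdiag] at hlow
  fin_cases a <;> fin_cases b <;> first | exact absurd rfl hab | (simp at hcon0 hcon1; omega)

/-- connectivity of the construction -/
lemma kconn [Fintype S] [Fintype Q] [Fintype K]
    (h : Q → Fin κ → S) (p : Fin κ → K)
    (A : Fin 3 → S → Prop) (B : Q → K → S → Prop)
    (H : Q → SimpleGraph K) (hκ0 : 0 < κ) (hκ : κ ≤ 3) (hh : ∀ q, Function.Injective (h q))
    (hp : Function.Injective p) (hA : ∀ a u, A a u) (hB : ∀ q j, B q (p j) (h q j))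
    (hc : ∀ q k k', k ≠ k' → (H q).Adj k k' ∨
      ∃ s : Finset K, κ ≤ s.card ∧ ∀ x ∈ s, (H q).Adj k x ∧ (H q).Adj x k')
    (hS : 0 < Fintype.card S) :
    KConnected κ (G A B H) := by
  classical
  constructor
  · simp only [Fintype.card_sum, Fintype.card_fin]; omega
  intro X hX
  -- a vertex of the triangle outside X
  obtain ⟨a, ha⟩ : ∃ a : Fin 3, (.inl a : Fin 3 ⊕ S ⊕ (Q × K)) ∉ X := by
    by_contra hcon
    push Not at hcon
    have : Fintype.card (Fin 3) ≤ X.card := by
      have := Finset.card_le_card_of_injOn (s := (Finset.univ : Finset (Fin 3))) (t := X)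
        (fun a => (.inl a : Fin 3 ⊕ S ⊕ (Q × K))) (fun a _ => hcon a)
        (fun a _ b _ hab => by simpa using hab)
      simpa using this
    simp at this
    omega
  set GX := (G A B H).induce {v | v ∉ X} with hGX
  have hadj : ∀ v w (hv : v ∉ X) (hw : w ∉ X), (G A B H).Adj v w →
      GX.Reachable ⟨v, hv⟩ ⟨w, hw⟩ := by
    intro v w hv hw hvw
    exact SimpleGraph.Adj.reachable (by simpa [hGX] using hvw)
  have hr : ∀ v (hv : v ∉ X), GX.Reachable ⟨v, hv⟩ ⟨.inl a, ha⟩ := by
    have hrS : ∀ u (hu : (.inr (.inl u) : Fin 3 ⊕ S ⊕ (Q × K)) ∉ X),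
        GX.Reachable ⟨.inr (.inl u), hu⟩ ⟨.inl a, ha⟩ := by
      intro u hu
      exact hadj _ _ _ _ (by simpa [G, adj] using hA a u)
    rintro (b | u | ⟨q, k⟩) hv
    · by_cases hba : b = a
      · subst hba; exact SimpleGraph.Reachable.refl _
      · exact hadj _ _ _ _ (by simpa [G, adj] using hba)
    · exact hrS u hv
    · -- a surviving boundary edge
      obtain ⟨j, hj1, hj2⟩ : ∃ j : Fin κ,
          (.inr (.inr (q, p j)) : Fin 3 ⊕ S ⊕ (Q × K)) ∉ X ∧
          (.inr (.inl (h q j)) : Fin 3 ⊕ S ⊕ (Q × K)) ∉ X := by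
        by_contra hcon
        push Not at hcon
        have : Fintype.card (Fin κ) ≤ X.card := by
          have := Finset.card_le_card_of_injOn (s := (Finset.univ : Finset (Fin κ))) (t := X)
            (fun j => if (.inr (.inr (q, p j)) : Fin 3 ⊕ S ⊕ (Q × K)) ∈ X
              then (.inr (.inr (q, p j)) : Fin 3 ⊕ S ⊕ (Q × K)) else .inr (.inl (h q j)))
            (fun j _ => by
              by_cases h1 : (.inr (.inr (q, p j)) : Fin 3 ⊕ S ⊕ (Q × K)) ∈ X
              · simp only [h1, if_true]; exact h1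
              · simp only [h1, if_false]; exact hcon j h1)
            (fun i _ j _ hij => by
              simp only at hij
              split_ifs at hij with h1 h2
              · simp only [Sum.inr.injEq, Prod.mk.injEq, true_and] at hij
                exact hp hij
              · simp at hij
              · simp at hij
              · simp only [Sum.inr.injEq, Sum.inl.injEq] at hij
                exact hh q hij)
          simpa using this
        simp at this
        omega
      have h1 : GX.Reachable ⟨.inr (.inr (q, p j)), hj1⟩ ⟨.inl a, ha⟩ :=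
        (hadj _ (.inr (.inl (h q j))) _ hj2 (by simpa [G, adj] using hB q j)).trans (hrS _ hj2)
      refine SimpleGraph.Reachable.trans ?_ h1
      by_cases hk : k = p j
      · subst hk; exact SimpleGraph.Reachable.refl _
      · rcases hc q k (p j) hk with hadj' | ⟨s, hs, hs2⟩
        · exact hadj _ _ _ _ (by simpa [G, adj] using hadj')
        · obtain ⟨x, hx, hxX⟩ : ∃ x ∈ s, (.inr (.inr (q, x)) : Fin 3 ⊕ S ⊕ (Q × K)) ∉ X := by
            by_contra hcon
            push Not at hcon
            have : s.card ≤ X.card :=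
              Finset.card_le_card_of_injOn (fun x => (.inr (.inr (q, x)) : Fin 3 ⊕ S ⊕ (Q × K)))
              (fun x hx => hcon x hx) (fun x _ y _ hxy => by simpa using hxy)
            omega
          exact (hadj _ (.inr (.inr (q, x))) _ hxX (by simpa [G, adj] using (hs2 x hx).1)).trans
            (hadj _ _ _ _ (by simpa [G, adj] using (hs2 x hx).2))
  refine SimpleGraph.Connected.mk ?_ (nonempty := ⟨⟨.inl a, ha⟩⟩)
  rintro ⟨v, hv⟩ ⟨w, hw⟩
  exact (hr v hv).trans (hr w hw).symm

/-- The triangle as a subgraph. -/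
def tri (A : Fin 3 → S → Prop) (B : Q → K → S → Prop) (H : Q → SimpleGraph K) :
    (G A B H).Subgraph where
  verts := {v | v.isLeft}
  Adj v w := v.isLeft ∧ w.isLeft ∧ v ≠ w
  adj_sub := by
    rintro (a | u | ⟨q, k⟩) (b | u' | ⟨q', k'⟩) <;> simp [G, adj]
  edge_vert := by
    intro v w h; exact h.1
  symm := ⟨fun v w h => ⟨h.2.1, h.1, h.2.2.symm⟩⟩

lemma tri_cycle (A : Fin 3 → S → Prop) (B : Q → K → S → Prop) (H : Q → SimpleGraph K) :
    IsCycle (tri A B H) := by
  classical
  constructor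
  · rw [SimpleGraph.Subgraph.connected_iff']
    refine SimpleGraph.Connected.mk ?_ (nonempty := ⟨⟨.inl 0, by simp [tri]⟩⟩)
    rintro ⟨v, hv⟩ ⟨w, hw⟩
    by_cases hvw : v = w
    · subst hvw; exact SimpleGraph.Reachable.refl _
    · refine SimpleGraph.Adj.reachable ?_
      exact ⟨hv, hw, hvw⟩
  · rintro (a | u | ⟨q, k⟩) hv
    · have : (tri A B H).neighborSet (.inl a) =
          ((univ.filter (fun b : Fin 3 => b ≠ a)).image
            (fun b => (.inl b : Fin 3 ⊕ S ⊕ (Q × K))) : Finset _) := by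
        ext w
        rcases w with b | u' | ⟨q', k'⟩
        · simp only [SimpleGraph.Subgraph.mem_neighborSet, tri]
          simp [ne_comm]
        · simp [SimpleGraph.Subgraph.mem_neighborSet, tri]
        · simp [SimpleGraph.Subgraph.mem_neighborSet, tri]
      rw [this, Set.ncard_coe_finset, Finset.card_image_of_injective _ Sum.inl_injective]
      clear this hv
      revert a; decide
    · simp [tri] at hv
    · simp [tri] at hv

lemma tri_edges (A : Fin 3 → S → Prop) (B : Q → K → S → Prop) (H : Q → SimpleGraph K) :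
    (tri A B H).edgeSet.ncard = 3 := by
  classical
  have : (tri A B H).edgeSet = ((({s(0, 1), s(0, 2), s(1, 2)} : Finset (Sym2 (Fin 3))).image
      (Sym2.map (fun b => (.inl b : Fin 3 ⊕ S ⊕ (Q × K))))) : Finset _) := by
    ext e
    induction e using Sym2.ind with
    | _ v w =>
      rw [SimpleGraph.Subgraph.mem_edgeSet]
      rcases v with a | u | ⟨q, k⟩
      · rcases w with b | u' | ⟨q', k'⟩
        · fin_cases a <;> fin_cases b <;> simp [tri]
        · simp [tri]
        · simp [tri]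
      · simp [tri]
      · simp [tri]
  rw [this, Set.ncard_coe_finset, Finset.card_image_of_injective _
    (Sym2.map.injective Sum.inl_injective)]
  decide

/-- Assembling the counterexample from finite data. -/
lemma assemble [Fintype S] [Fintype Q] [Fintype K]
    (r : ℕ) (h : Q → Fin κ → S) (p : Fin κ → K)
    (A A' : Fin 3 → S → Prop) (B B' : Q → K → S → Prop)
    (H H' : Q → SimpleGraph K) (hκ0 : 0 < κ) (hκ : κ ≤ 3) (hh : ∀ q, Function.Injective (h q))
    (hp : Function.Injective p) (hA : ∀ a u, A a u) (hB : ∀ q j, B q (p j) (h q j))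
    (hc : ∀ q k k', k ≠ k' → (H q).Adj k k' ∨
      ∃ s : Finset K, κ ≤ s.card ∧ ∀ x ∈ s, (H q).Adj k x ∧ (H q).Adj x k')
    (hS : 0 < Fintype.card S) (hK : Odd (Fintype.card K))
    (hQ : Fintype.card Q + 3 = 3 * Fintype.card S)
    (hreg : IsRegular r (G A B H)) (hreg' : IsRegular 3 (G A' B' H'))
    (hle : G A' B' H' ≤ G A B H) (hr : 3 < r) (hr2 : r ≤ κ * (r - 3)) :
    ∃ r t : ℕ, 0 < r ∧ 0 < t ∧
    (1 : ℚ) / κ ≤ (t : ℚ) / r ∧ (t : ℚ) / r ≤ 1 ∧
    ∃ (V : Type) (_ : Fintype V) (G : SimpleGraph V), KConnected κ G ∧ IsRegular r G ∧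
      (∃ F, IsFactor t G F) ∧
      ∃ O : Set G.Subgraph, (∀ C ∈ O, IsCycle C ∧ 3 ≤ C.edgeSet.ncard) ∧
        (O.PairwiseDisjoint (fun C => C.edgeSet)) ∧
        ∀ F, IsFactor t G F → ∃ C ∈ O, Disjoint F.edgeSet C.edgeSet := by
  classical
  -- complements of factors
  have hcompl : ∀ (a : ℕ) (F : SimpleGraph (Fin 3 ⊕ S ⊕ (Q × K))), IsFactor a (G A B H) F →
      ∀ v, ((G A B H \ F).neighborSet v).ncard = r - a := by
    intro a F hF v
    have : (G A B H \ F).neighborSet v = (G A B H).neighborSet v \ F.neighborSet v := by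
      ext w; simp
    have hsub : F.neighborSet v ⊆ (G A B H).neighborSet v := fun w hw => hF.1 hw
    rw [this, Set.ncard_sdiff hsub, hreg v, hF.2 v]
  refine ⟨r, r - 3, by omega, by omega, ?_, ?_, Fin 3 ⊕ S ⊕ (Q × K), inferInstance, G A B H,
    kconn h p A B H hκ0 hκ hh hp hA hB hc hS, hreg, ⟨G A B H \ G A' B' H', sdiff_le,
      hcompl 3 _ ⟨hle, hreg'⟩⟩, {tri A B H}, ?_, ?_, ?_⟩
  · rw [div_le_div_iff₀ (by exact_mod_cast hκ0) (by exact_mod_cast (by omega : 0 < r))]
    rw [one_mul, mul_comm]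
    exact_mod_cast hr2
  · rw [div_le_one (by exact_mod_cast (by omega : 0 < r))]
    exact_mod_cast Nat.sub_le _ _
  · intro C hC
    rw [Set.mem_singleton_iff] at hC
    subst hC
    exact ⟨tri_cycle A B H, (tri_edges A B H).ge⟩
  · exact Set.pairwiseDisjoint_singleton _ _
  · intro F hF
    refine ⟨_, rfl, ?_⟩
    have h3 : ∀ v, ((G A B H \ F).neighborSet v).ncard = 3 := by
      intro v
      rw [hcompl _ F hF v]
      omega
    have key := forced A B H hK hQ (G A B H \ F) sdiff_le h3
    rw [Set.disjoint_left]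
    intro e
    induction e using Sym2.ind with
    | _ v w =>
      intro he he'
      rw [SimpleGraph.mem_edgeSet] at he
      rw [SimpleGraph.Subgraph.mem_edgeSet] at he'
      obtain ⟨hv, hw, hvw⟩ := he'
      rcases v with a | v
      · rcases w with b | w
        · have := key a b (fun h => hvw (by rw [h]))
          simp only [SimpleGraph.sdiff_adj] at this
          exact this.2 he
        · simp at hw
      · simp at hv

/-- graph on `Fin n` from adjacency masks -/
def mk (n : ℕ) (m : Fin n → ℕ) : SimpleGraph (Fin n) where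
  Adj a b := a ≠ b ∧ ((m a).testBit b = true ∨ (m b).testBit a = true)
  symm := ⟨fun _ _ h => ⟨h.1.symm, h.2.symm⟩⟩
  loopless := ⟨fun _ h => h.1 rfl⟩

instance (n : ℕ) (m : Fin n → ℕ) : DecidableRel (mk n m).Adj := fun a b => by
  unfold mk; infer_instance

/-- boundary pairs for `κ = 2` -/
def h2 : Fin 15 → Fin 2 → Fin 6 :=
  ![![0, 1], ![0, 2], ![0, 3], ![0, 4], ![0, 5], ![1, 2], ![1, 3], ![1, 4], ![1, 5], ![2, 3],
    ![2, 4], ![2, 5], ![3, 4], ![3, 5], ![4, 5]]

/-- used boundary edge for `κ = 2` -/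
def c2 : Fin 15 → Fin 2 := ![1, 1, 0, 0, 1, 1, 1, 1, 0, 1, 1, 1, 0, 1, 0]

/-- masks of `K_9` minus an edge -/
def H2 : Fin 9 → ℕ := ![508, 508, 507, 503, 495, 479, 447, 383, 255]

/-- masks of the partial factors -/
def L2 : Fin 2 → Fin 9 → ℕ :=
  ![![36, 152, 25, 38, 70, 265, 400, 322, 224], ![324, 80, 137, 276, 42, 400, 131, 100, 41]]

/-- boundary triples for `κ = 3` -/
def h3 : Fin 24 → Fin 3 → Fin 9 :=
  ![![0, 1, 2], ![0, 3, 6], ![0, 4, 8], ![0, 5, 7], ![1, 3, 8], ![1, 4, 7], ![1, 5, 6],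
    ![2, 3, 7], ![2, 4, 6], ![2, 5, 8], ![3, 4, 5], ![6, 7, 8], ![0, 1, 2], ![0, 3, 6],
    ![0, 4, 8], ![0, 5, 7], ![1, 3, 8], ![1, 4, 7], ![1, 5, 6], ![2, 3, 7], ![2, 4, 6],
    ![2, 5, 8], ![3, 4, 5], ![6, 7, 8]]

/-- used boundary edge for `κ = 3` -/
def c3 : Fin 24 → Fin 3 :=
  ![2, 0, 2, 2, 2, 1, 1, 2, 2, 1, 0, 0, 1, 0, 1, 1, 2, 2, 0, 1, 1, 0, 0, 0]

/-- masks of the component for `κ = 3` -/
def H3 : Fin 13 → ℕ :=
  ![8166, 8093, 7803, 8182, 8174, 8157, 8125, 8059, 7931, 6655, 6655, 2047, 2047]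

/-- masks of the partial factors -/
def L3 : Fin 3 → Fin 13 → ℕ :=
  ![![320, 2060, 546, 162, 2240, 268, 1041, 4120, 545, 4356, 6208, 1042, 1664],
    ![194, 5, 5122, 7168, 2336, 592, 289, 1537, 2128, 4256, 140, 280, 524],
    ![1184, 784, 4608, 6656, 5122, 193, 2336, 2081, 1090, 14, 273, 200, 28]]

/-- Full disproof. For `κ = 2` and for `κ = 3` there are `r, t` with `1/κ ≤ t/r ≤ 1`, a finite
simple `κ`-connected `r`-regular graph with a `t`-factor, and a family of edge-disjoint cycles of
length at least three, such that every `t`-factor is edge-disjoint from some cycle of the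
family. -/
theorem result : ∀ κ ∈ ({2, 3} : Set ℕ), ∃ r t : ℕ, 0 < r ∧ 0 < t ∧
    (1 : ℚ) / κ ≤ (t : ℚ) / r ∧ (t : ℚ) / r ≤ 1 ∧
    ∃ (V : Type) (_ : Fintype V) (G : SimpleGraph V), KConnected κ G ∧ IsRegular r G ∧
      (∃ F, IsFactor t G F) ∧
      ∃ O : Set G.Subgraph, (∀ C ∈ O, IsCycle C ∧ 3 ≤ C.edgeSet.ncard) ∧
        (O.PairwiseDisjoint (fun C => C.edgeSet)) ∧
        ∀ F, IsFactor t G F → ∃ C ∈ O, Disjoint F.edgeSet C.edgeSet := by
  rintro κ (rfl | hκ)
  · refine assemble (κ := 2) (S := Fin 6) (Q := Fin 15) (K := Fin 9) 8 h2 ![0, 1]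
      (fun _ _ => True) (fun a u => u.val = a.val)
      (fun q k u => ∃ j, h2 q j = u ∧ (![0, 1] : Fin 2 → Fin 9) j = k)
      (fun q k u => h2 q (c2 q) = u ∧ (![0, 1] : Fin 2 → Fin 9) (c2 q) = k)
      (fun _ => mk 9 H2) (fun q => mk 9 (L2 (c2 q)))
      (by norm_num) (by norm_num) (by decide) (by decide) (by simp) ?_ ?_ (by simp)
      (by simp; decide) (by simp) ?_ ?_ ?_ (by norm_num) (by norm_num)
    · intro q j; exact ⟨j, rfl, rfl⟩
    · intro q k k' hkk
      by_cases hadj : (mk 9 H2).Adj k k'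
      · exact Or.inl hadj
      · right
        refine ⟨univ.filter (fun x => (mk 9 H2).Adj k x ∧ (mk 9 H2).Adj x k'), ?_, ?_⟩
        · revert k k'; decide
        · intro x hx; simpa using hx
    · refine G_deg ?_ ?_ ?_
      · decide
      · decide
      · decide
    · refine G_deg ?_ ?_ ?_
      · decide
      · decide
      · decide
    · refine G_mono (by simp) ?_ ?_
      · rintro q k u ⟨h1, h2⟩; exact ⟨_, h1, h2⟩
      · decide
  · rw [Set.mem_singleton_iff] at hκ
    subst hκ
    refine assemble (κ := 3) (S := Fin 9) (Q := Fin 24) (K := Fin 13) 11 h3 ![0, 1, 2]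
      (fun _ _ => True) (fun a u => u.val = a.val)
      (fun q k u => ∃ j, h3 q j = u ∧ (![0, 1, 2] : Fin 3 → Fin 13) j = k)
      (fun q k u => h3 q (c3 q) = u ∧ (![0, 1, 2] : Fin 3 → Fin 13) (c3 q) = k)
      (fun _ => mk 13 H3) (fun q => mk 13 (L3 (c3 q)))
      (by norm_num) (by norm_num) (by decide) (by decide) (by simp) ?_ ?_ (by simp)
      (by simp; decide) (by simp) ?_ ?_ ?_ (by norm_num) (by norm_num)
    · intro q j; exact ⟨j, rfl, rfl⟩
    · intro q k k' hkk
      by_cases hadj : (mk 13 H3).Adj k k'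
      · exact Or.inl hadj
      · right
        refine ⟨univ.filter (fun x => (mk 13 H3).Adj k x ∧ (mk 13 H3).Adj x k'), ?_, ?_⟩
        · revert k k'; decide
        · intro x hx; simpa using hx
    · refine G_deg ?_ ?_ ?_
      · decide
      · decide
      · decide
    · refine G_deg ?_ ?_ ?_
      · decide
      · decide
      · decide
    · refine G_mono (by simp) ?_ ?_
      · rintro q k u ⟨h1, h2⟩; exact ⟨_, h1, h2⟩
      · decide

end Pool.Agent.Results.MP_f3efb8_co.ForcedTriangle
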